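import Pool.Agent.helper72.UP.Spec

set_option autoImplicit false

namespace Pool.Agent.helper72.UP

open Finset

theorem VAN : VAN_stmt := by
  intro n k hk
  have hsum : (n + 1) / 2 + n / 2 = n := by omega
  have hle : k / 2 ≤ n / 2 := Nat.div_le_div_right hk
  have h1 : n.choose (n / 2) = ∑ i ∈ range (n / 2 + 1), uu n i := by
    have e := Nat.add_choose_eq ((n + 1) / 2) (n / 2) (n / 2)
    rw [hsum] at e
    rw [e, Finset.Nat.sum_antidiagonal_eq_sum_range_succ_mk]
    refine sum_congr rfl fun i hi => ?_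
    have hi' : i ≤ n / 2 := Nat.lt_succ_iff.1 (mem_range.1 hi)
    unfold uu
    rw [Nat.choose_symm hi']
  have h2 : Icc 1 (k / 2) = Ico 1 (k / 2 + 1) := by
    ext i
    rw [mem_Icc, mem_Ico]
    omega
  have h3 : Ioc (k / 2) (n / 2) = Ico (k / 2 + 1) (n / 2 + 1) := by
    ext i
    rw [mem_Ioc, mem_Ico]
    omega
  have h4 := Finset.sum_Ico_consecutive (uu n) (show 1 ≤ k / 2 + 1 by omega)
    (show k / 2 + 1 ≤ n / 2 + 1 by omega)
  have h5 := Finset.sum_Ico_consecutive (uu n) (show 0 ≤ 1 by omega)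
    (show 1 ≤ n / 2 + 1 by omega)
  have h6 : ∑ i ∈ Ico 0 1, uu n i = 1 := by
    rw [Nat.Ico_succ_singleton, sum_singleton]
    unfold uu
    simp
  rw [h1, range_eq_Ico, ← h5, ← h4, h6]
  unfold VV TT
  rw [h2, h3, add_assoc]

end Pool.Agent.helper72.UP
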